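import Mathlib

/-!
The critical points of the chain form
`t y_0^m + y_0 y_1^(m-1) + ... + y_(M-1) y_M^(m-1) + y_M^m`, `t` transcendental.
-/

namespace Pool.Agent.CR2

theorem chain {k L : Type*} [Field k] [Field L] [Algebra k L] (t : L) (ht : Transcendental k t)
    (m : ℕ) (hm : 3 ≤ m) (h1 : (m : k) ≠ 0) (h2 : ((m - 1 : ℕ) : k) ≠ 0) (M : ℕ) (hM : 1 ≤ M)
    (y : ℕ → L) (E0 : (m : L) * t * y 0 ^ (m - 1) + y 1 ^ (m - 1) = 0)
    (E : ∀ i, 1 ≤ i → i < M →
      ((m - 1 : ℕ) : L) * y (i - 1) * y i ^ (m - 2) + y (i + 1) ^ (m - 1) = 0)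
    (EM : ((m - 1 : ℕ) : L) * y (M - 1) * y M ^ (m - 2) + (m : L) * y M ^ (m - 1) = 0) :
    ∀ i ≤ M, y i = 0 := by
  obtain ⟨n, rfl⟩ : ∃ n, m = n + 3 := ⟨m - 3, by omega⟩
  have e1 : n + 3 - 1 = n + 2 := by omega
  have e2 : n + 3 - 2 = n + 1 := by omega
  simp only [e1, e2] at *
  have k1 : ((n + 3 : ℕ) : L) ≠ 0 := by
    rw [← map_natCast (algebraMap k L)]
    exact (map_ne_zero _).2 h1
  have k2 : ((n + 2 : ℕ) : L) ≠ 0 := by
    rw [← map_natCast (algebraMap k L)]
    exact (map_ne_zero _).2 h2
  have a1 : IsAlgebraic k ((n + 3 : ℕ) : L) := by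
    rw [← map_natCast (algebraMap k L)]
    exact isAlgebraic_algebraMap _
  have a2 : IsAlgebraic k ((n + 2 : ℕ) : L) := by
    rw [← map_natCast (algebraMap k L)]
    exact isAlgebraic_algebraMap _
  by_cases h0 : y 0 = 0
  · have key : ∀ i, i < M → y i = 0 ∧ y (i + 1) = 0 := by
      intro i
      induction i with
      | zero =>
        intro _
        refine ⟨h0, ?_⟩
        rw [h0, zero_pow (by omega), mul_zero, zero_add] at E0
        exact pow_eq_zero_iff (by omega) |>.1 E0
      | succ i ih =>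
        intro hi
        obtain ⟨h3, h4⟩ := ih (by omega)
        refine ⟨h4, ?_⟩
        have h5 := E (i + 1) (by omega) hi
        rw [h4, zero_pow (by omega), mul_zero, zero_add] at h5
        exact pow_eq_zero_iff (by omega) |>.1 h5
    intro i hi
    rcases Nat.lt_or_ge i M with h | h
    · exact (key i h).1
    · obtain rfl : i = M := by omega
      have h3 := (key (i - 1) (by omega)).2
      rwa [Nat.sub_add_cancel hM] at h3
  · exfalso
    have key : ∀ i, 1 ≤ i → i ≤ M → y i ≠ 0 ∧ y (i - 1) ≠ 0 ∧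
        Transcendental k (y i / y (i - 1)) := by
      intro i hi
      induction i, hi using Nat.le_induction with
      | base =>
        intro _
        have h3 : (y 1 / y 0) ^ (n + 2) = -((n + 3 : ℕ) : L) * t := by
          rw [div_pow, div_eq_iff (pow_ne_zero _ h0)]
          linear_combination E0
        have ht0 : t ≠ 0 := by
          rintro rfl
          exact ht isAlgebraic_zero
        have h4 : y 1 ≠ 0 := by
          intro h
          rw [h, zero_div, zero_pow (by omega)] at h3
          exact mul_ne_zero (neg_ne_zero.2 k1) ht0 h3.symm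
        refine ⟨h4, h0, ?_⟩
        intro h
        have h5 := h.pow (n + 2)
        rw [show (1 : ℕ) - 1 = 0 from rfl, h3] at h5
        apply ht
        have h6 := h5.mul (a1.neg.inv)
        rwa [mul_comm (-((n + 3 : ℕ) : L)) t, mul_assoc, mul_inv_cancel₀ (neg_ne_zero.2 k1),
          mul_one] at h6
      | succ i hi ih =>
        intro hiM
        obtain ⟨h3, h4, h5⟩ := ih (by omega)
        have h6 := E i hi (by omega)
        have h7 : y (i + 1) ≠ 0 := by
          intro h
          rw [h, zero_pow (by omega), add_zero] at h6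
          exact mul_ne_zero (mul_ne_zero k2 h4) (pow_ne_zero _ h3) h6
        have h8 : (y (i + 1) / y i) ^ (n + 2) = -((n + 2 : ℕ) : L) * (y i / y (i - 1))⁻¹ := by
          rw [div_pow, div_eq_iff (pow_ne_zero _ h3), inv_div, mul_assoc, pow_succ (y i) (n + 1)]
          field_simp
          linear_combination h6
        refine ⟨h7, h3, ?_⟩
        intro h
        rw [Nat.add_sub_cancel] at h
        have h9 := h.pow (n + 2)
        rw [h8] at h9
        apply h5
        have h10 := (h9.mul (a2.neg.inv)).inv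
        have h11 : (-((n + 2 : ℕ) : L) * (y i / y (i - 1))⁻¹ * (-((n + 2 : ℕ) : L))⁻¹)⁻¹ =
            y i / y (i - 1) := by
          rw [mul_comm (-((n + 2 : ℕ) : L)), mul_assoc, mul_inv_cancel₀ (neg_ne_zero.2 k2),
            mul_one, inv_inv]
        rwa [h11] at h10
    obtain ⟨h3, h4, h5⟩ := key M hM le_rfl
    apply h5
    have h6 : y M / y (M - 1) = -((n + 2 : ℕ) : L) * (((n + 3 : ℕ) : L))⁻¹ := by
      have h7 : (((n + 2 : ℕ) : L) * y (M - 1) + ((n + 3 : ℕ) : L) * y M) * y M ^ (n + 1) = 0 := by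
        rw [← EM]
        ring
      have h8 := (mul_eq_zero.1 h7).resolve_right (pow_ne_zero _ h3)
      rw [div_eq_iff h4]
      field_simp
      linear_combination h8
    rw [h6]
    exact a2.neg.mul a1.inv

end Pool.Agent.CR2
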