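import Pool.Agent.Helper41.PP.Vanish

/-!
Cones (helper67).  `rn τ κ : MvPolynomial τ κ → MvPolynomial (Option τ) κ` is the inclusion.
A subvariety of the cone `V(J.map rn)` over `V(J)` is, in codimension `c ≤ #τ`, rationally
equivalent on the cone to a combination of cones over subvarieties of `V(J)` (in the case `c = #τ`
the irrelevant ideal of `MvPolynomial τ κ` gives the vertex).
-/

namespace Pool.Agent.CR2

open MvPolynomial Pool.Agent.Helper41.PP

/-- The kernel of the evaluation of the variables in `S` at zero. -/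
private noncomputable def PS {τ : Type} (κ : Type) [Field κ] [DecidableEq τ] (S : Finset τ) :
    Ideal (MvPolynomial τ κ) :=
  RingHom.ker (aeval (fun i => if i ∈ S then 0 else X i) : MvPolynomial τ κ →ₐ[κ] MvPolynomial τ κ)

private theorem PS_prime {τ κ : Type} [Field κ] [DecidableEq τ] (S : Finset τ) :
    (PS κ S).IsPrime := RingHom.ker_isPrime _

private theorem PS_lt {τ κ : Type} [Field κ] [DecidableEq τ] (S : Finset τ) (j : τ) (hj : j ∉ S) :
    PS κ S < PS κ (insert j S) := by
  rw [lt_iff_le_and_ne]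
  constructor
  · intro f hf
    have h1 : (aeval (fun i => if i ∈ insert j S then 0 else X i) :
        MvPolynomial τ κ →ₐ[κ] MvPolynomial τ κ) =
        (aeval (fun i => if i ∈ insert j S then 0 else X i) :
          MvPolynomial τ κ →ₐ[κ] MvPolynomial τ κ).comp
        (aeval (fun i => if i ∈ S then 0 else X i) :
          MvPolynomial τ κ →ₐ[κ] MvPolynomial τ κ) := by
      apply MvPolynomial.algHom_ext
      intro i
      rw [AlgHom.comp_apply, aeval_X, aeval_X]
      by_cases hi : i ∈ S
      · simp [hi]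
      · simp [hi]
    unfold PS at hf ⊢
    rw [RingHom.mem_ker] at hf ⊢
    rw [h1, AlgHom.comp_apply, hf, map_zero]
  · intro h
    have h1 : (X j : MvPolynomial τ κ) ∈ PS κ (insert j S) := by
      unfold PS
      rw [RingHom.mem_ker, aeval_X]
      simp
    rw [← h] at h1
    unfold PS at h1
    rw [RingHom.mem_ker, aeval_X, if_neg hj] at h1
    exact X_ne_zero j h1

private theorem PS_height {τ κ : Type} [Field κ] [DecidableEq τ] (S : Finset τ) :
    (S.card : ℕ∞) ≤ (PS κ S).height := by
  induction S using Finset.induction_on with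
  | empty => simp
  | insert j S hj ih =>
    have h1 := PS_prime (κ := κ) S
    have h2 := PS_prime (κ := κ) (insert j S)
    have h3 := Ideal.height_add_one_le_of_lt_of_isPrime (PS_lt (κ := κ) S j hj)
    rw [Finset.card_insert_of_notMem hj]
    push_cast
    exact le_trans (by gcongr) h3

/-- A prime ideal which contains all the variables contains all polynomials without constant
term. -/
theorem mem_of_vars {τ κ : Type} [Field κ] (q : Ideal (MvPolynomial τ κ))
    (hq : ∀ i, X i ∈ q) (f : MvPolynomial τ κ) : f - C (constantCoeff f) ∈ q := by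
  classical
  have h3 : f - C (constantCoeff f) ∈ Ideal.span (X '' (Set.univ : Set τ)) := by
    rw [mem_ideal_span_X_image]
    intro m hm
    by_contra h3
    push Not at h3
    have h4 : m = 0 := by
      ext i
      exact h3 i (Set.mem_univ i)
    rw [mem_support_iff, h4] at hm
    apply hm
    rw [coeff_sub, constantCoeff_eq, coeff_C, if_pos rfl, sub_self]
  have h4 : Ideal.span (X '' (Set.univ : Set τ)) ≤ q := by
    rw [Ideal.span_le]
    rintro x ⟨i, -, rfl⟩
    exact hq i
  exact h4 h3

/-- A prime ideal which contains all the variables has height at least their number. -/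
theorem card_le_height {τ κ : Type} [Finite τ] [Field κ] (q : Ideal (MvPolynomial τ κ)) [q.IsPrime]
    (hq : ∀ i, X i ∈ q) : (Nat.card τ : ℕ∞) ≤ q.height := by
  classical
  have := Fintype.ofFinite τ
  have h1 := PS_height (κ := κ) (Finset.univ : Finset τ)
  have h2 : PS κ (Finset.univ : Finset τ) ≤ q := by
    intro f hf
    unfold PS at hf
    rw [RingHom.mem_ker] at hf
    have h5 : constantCoeff f = 0 := by
      have h6 : (fun i : τ => if i ∈ (Finset.univ : Finset τ) then (0 : MvPolynomial τ κ) else X i) =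
          fun _ => 0 := by
        funext i
        simp
      rw [h6, aeval_zero'] at hf
      rw [MvPolynomial.algebraMap_eq] at hf
      exact (C_eq_zero).1 hf
    have h6 := mem_of_vars q hq f
    rw [h5, C_0, sub_zero] at h6
    exact h6
  calc (Nat.card τ : ℕ∞) = (Finset.univ : Finset τ).card := by
        rw [Nat.card_eq_fintype_card, Finset.card_univ]
    _ ≤ _ := h1
    _ ≤ _ := Ideal.height_mono h2

variable {τ κ : Type} [Field κ]

/-- The span of the cones over the subvarieties of `V(J)`; `I'` is an ideal of the cone. -/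
noncomputable def ConeS (w : Option τ → ℕ) (J : Ideal (MvPolynomial τ κ))
    (I' : Ideal (MvPolynomial (Option τ) κ)) (c : ℕ) : Submodule ℚ (Sub w I' c →₀ ℚ) :=
  Submodule.span ℚ {r | ∃ (Q : Sub w I' c) (q : Sub (fun i => w (some i)) J c),
    Q.ideal = q.ideal.map (rn τ κ) ∧ r = Finsupp.single Q 1}

private theorem comap_homog {w : Option τ → ℕ} {I : Ideal (MvPolynomial (Option τ) κ)} {c : ℕ}
    (Q : Sub w I c) (f : MvPolynomial τ κ) (hf : f ∈ Q.ideal.comap (rn τ κ)) (d : ℕ) :
    weightedHomogeneousComponent (fun i => w (some i)) d f ∈ Q.ideal.comap (rn τ κ) := by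
  rw [Ideal.mem_comap] at hf ⊢
  rw [rn_comp]
  exact Q.homog _ hf d

/-- The case of a cone. -/
private theorem const_case [Finite τ] (w : Option τ → ℕ) (J : Ideal (MvPolynomial τ κ))
    (I' : Ideal (MvPolynomial (Option τ) κ)) (c : ℕ) (Q : Sub w I' c)
    (hJ : J.map (rn τ κ) ≤ Q.ideal) (hQ : Q.ideal = (Q.ideal.comap (rn τ κ)).map (rn τ κ)) :
    Finsupp.single Q 1 ∈ ConeS w J I' c := by
  have := Q.prime
  have hp : (Q.ideal.comap (rn τ κ)).IsPrime := Ideal.comap_isPrime (rn τ κ) Q.ideal
  have hh : (Q.ideal.comap (rn τ κ)).height = c := by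
    let : Algebra (MvPolynomial τ κ) (MvPolynomial (Option τ) κ) := (rn τ κ).toAlgebra
    have : Module.Flat (MvPolynomial τ κ) (MvPolynomial (Option τ) κ) := (rn_good τ κ w).flat
    have h1 := height_map_flat (A := MvPolynomial τ κ) (B := MvPolynomial (Option τ) κ)
      (Q.ideal.comap (rn τ κ)) Q.ideal hQ rfl
    rw [← h1, Q.height]
  exact Submodule.subset_span ⟨Q,
    { ideal := Q.ideal.comap (rn τ κ)
      prime := hp
      homog := comap_homog Q
      le := Ideal.map_le_iff_le_comap.1 hJ
      height := hh }, hQ, rfl⟩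

/-- Every subvariety of the cone is a combination of cones over subvarieties of the base, modulo
rational equivalence.  `I'` is any ideal with the same zeros as `J.map rn`. -/
theorem cone_span [Finite τ] (w : Option τ → ℕ) (hw : ∀ i, 0 < w (some i))
    (J : Ideal (MvPolynomial τ κ)) (I' : Ideal (MvPolynomial (Option τ) κ))
    (hI : I' ≤ J.map (rn τ κ)) (hI' : J.map (rn τ κ) ≤ I'.radical)
    (c : ℕ) (hc : c ≤ Nat.card τ) (Q : Sub w I' c) :
    Finsupp.single Q 1 ∈ Rel w I' c ⊔ ConeS w J I' c := by
  classical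
  have hJle : ∀ (b : ℕ) (Q : Sub w I' b), J.map (rn τ κ) ≤ Q.ideal := by
    intro b Q
    have := Q.prime
    exact hI'.trans ((Ideal.IsPrime.radical_le_iff Q.prime).2 Q.le)
  by_cases hne : Q.ideal = (Q.ideal.comap (rn τ κ)).map (rn τ κ)
  · exact Submodule.mem_sup_right (const_case w J I' c Q (hJle c Q) hne)
  · have hQp := Q.prime
    have hp : (Q.ideal.comap (rn τ κ)).IsPrime := Ideal.comap_isPrime (rn τ κ) Q.ideal
    have hh := rn_height τ κ Q.ideal hne
    obtain ⟨b, rfl⟩ : ∃ b, b + 1 = c := by
      cases c with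
      | zero =>
        exfalso
        rw [Q.height] at hh
        have h1 : (1 : ℕ∞) ≤ 0 := by
          calc (1 : ℕ∞) ≤ (Q.ideal.comap (rn τ κ)).height + 1 := le_add_self
            _ = ((0 : ℕ) : ℕ∞) := hh.symm
            _ = 0 := by norm_num
        exact absurd h1 (by norm_num)
      | succ b => exact ⟨b, rfl⟩
    have hb : (Q.ideal.comap (rn τ κ)).height = b := by
      rw [Q.height] at hh
      have h1 : ((b : ℕ∞) + 1) = (Q.ideal.comap (rn τ κ)).height + 1 := by
        rw [← hh]; push_cast; rfl
      exact ((ENat.add_left_injective_of_ne_top (ENat.natCast_ne_top 1)) h1).symm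
    let P0 : Sub (fun i => w (some i)) J b :=
      { ideal := Q.ideal.comap (rn τ κ)
        prime := hp
        homog := comap_homog Q
        le := Ideal.map_le_iff_le_comap.1 (hJle _ Q)
        height := hb }
    obtain ⟨e, he⟩ := exists_ext (rn_good τ κ w) hI b
    have hP : (e P0).ideal = (Q.ideal.comap (rn τ κ)).map (rn τ κ) := he P0
    obtain ⟨D, g, hg, hgq, hgn, hel⟩ := rn_elim τ κ w Q.ideal Q.homog hne
    have hgP : g ∉ (e P0).ideal := by
      rw [hP]
      exact hgn
    obtain ⟨i, hi⟩ : ∃ i, (X i : MvPolynomial τ κ) ∉ Q.ideal.comap (rn τ κ) := by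
      by_contra hcon
      push Not at hcon
      have h1 := card_le_height (Q.ideal.comap (rn τ κ)) hcon
      rw [hb] at h1
      have h2 : Nat.card τ ≤ b := by exact_mod_cast h1
      omega
    have hctX : rn τ κ (X i) = X (some i) := by
      show rename Option.some (X i) = _
      rw [rename_X]
    have hXQ : (X (some i) : MvPolynomial (Option τ) κ) ∉ Q.ideal := by
      intro h
      apply hi
      rw [Ideal.mem_comap, hctX]
      exact h
    have hPQ : (e P0).ideal ≤ Q.ideal := by rw [hP]; exact Ideal.map_comap_le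
    have hXP : (X (some i) : MvPolynomial (Option τ) κ) ∉ (e P0).ideal := fun h => hXQ (hPQ h)
    have hPp := (e P0).prime
    have hgP' : g ^ w (some i) ∉ (e P0).ideal := fun h => hgP (hPp.mem_of_pow_mem _ h)
    have hXP' : (X (some i) : MvPolynomial (Option τ) κ) ^ D ∉ (e P0).ideal :=
      fun h => hXP (hPp.mem_of_pow_mem _ h)
    obtain ⟨u, hu⟩ := exists_div (c := b + 1) rfl (e P0) _ hgP'
    obtain ⟨v, hv⟩ := exists_div (c := b + 1) rfl (e P0) _ hXP'
    have hrC : u - v ∈ Rel w I' (b + 1) := by
      refine Submodule.subset_span ⟨b, e P0, w (some i) * D, _, _, u, v, rfl, ?_, ?_, hgP', hXP',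
        hu, hv, ?_⟩
      · have h1 := hg.pow (w (some i))
        rwa [smul_eq_mul] at h1
      · have h1 := (isWeightedHomogeneous_X κ w (some i)).pow D
        rwa [smul_eq_mul, mul_comm] at h1
      · intro Q'
        rfl
    apply single_mem_of _ (u - v) (Submodule.mem_sup_left hrC) Q
    · rw [Finsupp.sub_apply, (hu Q).1 hPQ, (hv Q).1 hPQ,
        mult_eq_zero _ _ _ (fun h => hXQ (hQp.mem_of_pow_mem _ h))]
      have h1 : 0 < mult (e P0).ideal Q.ideal (g ^ w (some i)) := by
        apply mult_pos _ _ hPQ _ _ hgP' (Ideal.pow_mem_of_mem _ hgq _ (hw i))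
        rw [Q.height, (e P0).height]; push_cast; exact le_refl _
      rw [Nat.cast_zero, sub_zero]
      exact_mod_cast h1.ne'
    · intro Q' hQ' hrQ'
      have hQp' := Q'.prime
      have h1 : (e P0).ideal ≤ Q'.ideal := by
        by_contra h1
        apply hrQ'
        rw [Finsupp.sub_apply, (hu Q').2 h1, (hv Q').2 h1, sub_zero]
      have h2 : g ∈ Q'.ideal ∨ (X (some i) : MvPolynomial (Option τ) κ) ∈ Q'.ideal := by
        by_contra h2
        push Not at h2
        apply hrQ'
        rw [Finsupp.sub_apply, (hu Q').1 h1, (hv Q').1 h1,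
          mult_eq_zero _ _ _ (fun h => h2.1 (hQp'.mem_of_pow_mem _ h)),
          mult_eq_zero _ _ _ (fun h => h2.2 (hQp'.mem_of_pow_mem _ h)), sub_self]
      have h3 : Q.ideal.comap (rn τ κ) ≤ Q'.ideal.comap (rn τ κ) := by
        rw [← Ideal.map_le_iff_le_comap, ← hP]
        exact h1
      apply Submodule.mem_sup_right
      apply const_case w J I' (b + 1) Q' (hJle _ Q')
      by_cases h4 : Q'.ideal.comap (rn τ κ) = Q.ideal.comap (rn τ κ)
      · exfalso
        apply hQ'
        have h5 : g ∈ Q'.ideal := by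
          rcases h2 with h2 | h2
          · exact h2
          · exfalso
            apply hi
            rw [← h4, Ideal.mem_comap, hctX]
            exact h2
        have h7 : Q.ideal ≤ Q'.ideal := hel _ hQp' h5 h4
        have : Q.ideal.FiniteHeight := ⟨Or.inr (by rw [Q.height]; exact ENat.natCast_ne_top _)⟩
        apply sub_ext
        exact (Ideal.eq_of_le_of_height_le Q.ideal h7 (by rw [Q.height, Q'.height])).symm
      · have hp' : (Q'.ideal.comap (rn τ κ)).IsPrime := Ideal.comap_isPrime (rn τ κ) Q'.ideal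
        have h5 : Q.ideal.comap (rn τ κ) < Q'.ideal.comap (rn τ κ) :=
          lt_of_le_of_ne h3 (fun h => h4 h.symm)
        have h6 := Ideal.height_add_one_le_of_lt_of_isPrime h5
        by_contra h7
        have h8 := rn_height τ κ Q'.ideal h7
        rw [Q'.height] at h8
        rw [hb] at h6
        have h9 : ((b + 1 : ℕ) : ℕ∞) + 1 ≤ ((b + 1 : ℕ) : ℕ∞) := by
          calc ((b + 1 : ℕ) : ℕ∞) + 1 ≤ (Q'.ideal.comap (rn τ κ)).height + 1 := by
                gcongr; push_cast; exact h6
            _ = ((b + 1 : ℕ) : ℕ∞) := h8.symm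
        have h10 : (((b + 1 + 1 : ℕ)) : ℕ∞) ≤ ((b + 1 : ℕ) : ℕ∞) := by
          exact_mod_cast h9
        have h11 : b + 1 + 1 ≤ b + 1 := by exact_mod_cast h10
        omega

/-- Taking cones is surjective on Chow groups, in codimension at most the number of variables of the
base. -/
theorem cone_surj [Finite τ] (w : Option τ → ℕ) (hw : ∀ i, 0 < w (some i))
    (J : Ideal (MvPolynomial τ κ)) (I' : Ideal (MvPolynomial (Option τ) κ))
    (hI : I' ≤ J.map (rn τ κ)) (hI' : J.map (rn τ κ) ≤ I'.radical)
    (c : ℕ) (hc : c ≤ Nat.card τ) :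
    ∃ φ : CH (fun i => w (some i)) J c →ₗ[ℚ] CH w I' c,
      (∀ q : Sub (fun i => w (some i)) J c, ∃ Q : Sub w I' c,
        Q.ideal = q.ideal.map (rn τ κ) ∧ φ (cls q) = cls Q) ∧ Function.Surjective φ := by
  classical
  obtain ⟨e, he⟩ := exists_ext (rn_good τ κ w) hI c
  let φ : CH (fun i => w (some i)) J c →ₗ[ℚ] CH w I' c :=
    Submodule.mapQ _ _ (Finsupp.lmapDomain ℚ ℚ e) (by
      intro r hr
      exact push_rel (rn_good τ κ w) hI e he r hr)
  have hφ : ∀ q, φ (cls q) = cls (e q) := by
    intro q
    simp only [φ, cls]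
    rw [Submodule.mkQ_apply, Submodule.mapQ_apply, Submodule.mkQ_apply]
    simp [Finsupp.lmapDomain_apply, Finsupp.mapDomain_single]
  refine ⟨φ, fun q => ⟨e q, he q, hφ q⟩, ?_⟩
  have hle : Rel w I' c ⊔ ConeS w J I' c ≤
      (LinearMap.range φ).comap (Rel w I' c).mkQ := by
    refine sup_le ?_ ?_
    · intro r hr
      rw [Submodule.mem_comap]
      have : (Rel w I' c).mkQ r = 0 := by
        rw [Submodule.mkQ_apply, Submodule.Quotient.mk_eq_zero]
        exact hr
      rw [this]
      exact Submodule.zero_mem _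
    · rw [ConeS, Submodule.span_le]
      rintro r ⟨Q, q, hQq, rfl⟩
      have hQ : Q = e q := sub_ext (by rw [he q, hQq])
      rw [SetLike.mem_coe, Submodule.mem_comap]
      refine ⟨cls q, ?_⟩
      rw [hφ q, hQ]
      rfl
  intro y
  obtain ⟨z, rfl⟩ := Submodule.mkQ_surjective _ y
  induction z using Finsupp.induction_linear with
  | zero => exact ⟨0, by simp⟩
  | add f g hf hg =>
    obtain ⟨a, ha⟩ := hf
    obtain ⟨b, hb⟩ := hg
    exact ⟨a + b, by rw [map_add, map_add, ha, hb]⟩
  | single Q a =>
    have h1 := hle (cone_span w hw J I' hI hI' c hc Q)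
    rw [Submodule.mem_comap] at h1
    obtain ⟨x, hx⟩ := h1
    refine ⟨a • x, ?_⟩
    rw [map_smul, hx, ← map_smul]
    simp

end Pool.Agent.CR2
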