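import Pool.Agent.CR2.Cone

/-!
Extreme codimensions (helper67).
`sub_one`: if `I` contains an irreducible polynomial, there is at most one homogeneous prime of
height one containing `I`.  `irr_linear`: `X none * a + b` is irreducible for relatively prime
`a ≠ 0`, `b` in the other variables.
`sub_top`: for positive weights there is at most one homogeneous prime of height `#σ`, the ideal of
the variables; `sub_gt`: none of larger height.
-/

namespace Pool.Agent.CR2

open MvPolynomial Pool.Agent.Helper41.PP

/-- At most one subvariety of codimension one, if `I` contains an irreducible polynomial. -/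
theorem sub_one {σ κ : Type} [Field κ] (w : σ → ℕ) (I : Ideal (MvPolynomial σ κ))
    (f : MvPolynomial σ κ) (hf : Irreducible f) (hfI : f ∈ I) : Subsingleton (Sub w I 1) := by
  constructor
  intro P Q
  have hp : Prime f := UniqueFactorizationMonoid.irreducible_iff_prime.1 hf
  apply sub_ext
  have h1 := P.prime
  have h2 := Q.prime
  rw [Ideal.eq_span_singleton_of_height_eq_one (by rw [P.height]; norm_num) (P.le hfI) hp,
    Ideal.eq_span_singleton_of_height_eq_one (by rw [Q.height]; norm_num) (Q.le hfI) hp]

/-- No subvariety of codimension zero, if `I` is not zero. -/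
theorem sub_zero {σ κ : Type} [Field κ] (w : σ → ℕ) (I : Ideal (MvPolynomial σ κ))
    (hI : I ≠ ⊥) : IsEmpty (Sub w I 0) := by
  constructor
  intro P
  have h1 := P.prime
  have h2 := P.height
  apply hI
  rw [eq_bot_iff]
  have h3 : P.ideal = ⊥ := by
    rw [← Ideal.height_eq_zero_iff_eq_bot, h2]
    norm_num
  rw [← h3]
  exact P.le

private theorem oel_rn {τ κ : Type} [Field κ] (f : MvPolynomial τ κ) :
    optionEquivLeft κ τ (rn τ κ f) = Polynomial.C f := by
  have h1 : rn τ κ f = rename Option.some f := rfl
  rw [h1]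
  induction f using MvPolynomial.induction_on with
  | C a => rw [rename_C, optionEquivLeft_C]
  | add p q hp hq =>
    rw [map_add, map_add, hp rfl, hq rfl, Polynomial.C_add]
  | mul_X p i hp => rw [map_mul, map_mul, hp rfl, rename_X, optionEquivLeft_X_some, Polynomial.C_mul]

/-- `X none * a + b` is irreducible. -/
theorem irr_linear {τ κ : Type} [Field κ] (a b : MvPolynomial τ κ) (ha : a ≠ 0)
    (hab : IsRelPrime a b) :
    Irreducible (X none * rn τ κ a + rn τ κ b : MvPolynomial (Option τ) κ) := by
  have h1 := Polynomial.irreducible_C_mul_X_add_C ha hab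
  rw [← MulEquiv.irreducible_iff (optionEquivLeft κ τ : MvPolynomial (Option τ) κ ≃ₐ[κ] _)]
  rw [map_add, map_mul, optionEquivLeft_X_none, oel_rn, oel_rn, mul_comm]
  exact h1

/-- A homogeneous proper ideal has no element with a nonzero constant term (positive weights). -/
theorem constantCoeff_of_mem {σ κ : Type} [Field κ] (w : σ → ℕ) (hw : ∀ i, 0 < w i)
    (Q : Ideal (MvPolynomial σ κ)) (hQ : HomId w Q) (hne : Q ≠ ⊤) (f : MvPolynomial σ κ)
    (hf : f ∈ Q) : constantCoeff f = 0 := by
  have h1 := hQ f hf 0
  rw [weightedHomogeneousComponent_zero _ (fun i => (hw i).ne')] at h1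
  by_contra h2
  apply hne
  exact Ideal.eq_top_of_isUnit_mem _ h1 ((isUnit_iff_ne_zero.2 h2).map C)

/-- The height of a prime is at most the number of variables. -/
theorem height_le_card {σ κ : Type} [Finite σ] [Field κ] (Q : Ideal (MvPolynomial σ κ))
    [Q.IsPrime] : Q.height ≤ (Nat.card σ : ℕ∞) := by
  have h1 := Ideal.height_le_ringKrullDim_of_isPrime (I := Q)
  rw [MvPolynomial.ringKrullDim_of_isNoetherianRing, ringKrullDim_eq_zero_of_field] at h1
  rw [zero_add] at h1
  exact_mod_cast h1

/-- No subvariety in codimension larger than the number of variables. -/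
theorem sub_gt {σ κ : Type} [Finite σ] [Field κ] (w : σ → ℕ) (I : Ideal (MvPolynomial σ κ))
    (c : ℕ) (hc : Nat.card σ < c) : IsEmpty (Sub w I c) := by
  constructor
  intro P
  have h1 := P.prime
  have h2 := height_le_card P.ideal
  rw [P.height] at h2
  have h3 : c ≤ Nat.card σ := by exact_mod_cast h2
  omega

/-- A homogeneous prime whose height is the number of variables contains the variables. -/
theorem vars_mem {σ κ : Type} [Finite σ] [Field κ] (w : σ → ℕ) (hw : ∀ i, 0 < w i)
    (I : Ideal (MvPolynomial σ κ)) (c : ℕ) (hc : Nat.card σ ≤ c) (Q : Sub w I c) (f : MvPolynomial σ κ) :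
    f ∈ Q.ideal ↔ constantCoeff f = 0 := by
  have hQ := Q.prime
  constructor
  · intro hf
    exact constantCoeff_of_mem w hw Q.ideal Q.homog hQ.ne_top f hf
  · intro hf
    have hm : (RingHom.ker (constantCoeff : MvPolynomial σ κ →+* κ)).IsPrime :=
      RingHom.ker_isPrime _
    have h1 : Q.ideal ≤ RingHom.ker (constantCoeff : MvPolynomial σ κ →+* κ) := by
      intro g hg
      rw [RingHom.mem_ker]
      exact constantCoeff_of_mem w hw Q.ideal Q.homog hQ.ne_top g hg
    have : Q.ideal.FiniteHeight := ⟨Or.inr (by rw [Q.height]; exact ENat.natCast_ne_top _)⟩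
    have h2 : Q.ideal = RingHom.ker (constantCoeff : MvPolynomial σ κ →+* κ) := by
      apply Ideal.eq_of_le_of_height_le Q.ideal h1
      refine (height_le_card _).trans ?_
      rw [Q.height]
      exact_mod_cast hc
    rw [h2, RingHom.mem_ker]
    exact hf

/-- At most one homogeneous prime of height `#σ`, for positive weights. -/
theorem sub_top {σ κ : Type} [Finite σ] [Field κ] (w : σ → ℕ) (hw : ∀ i, 0 < w i)
    (I : Ideal (MvPolynomial σ κ)) (c : ℕ) (hc : Nat.card σ ≤ c) : Subsingleton (Sub w I c) := by
  constructor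
  intro P Q
  apply sub_ext
  ext f
  rw [vars_mem w hw I c hc P, vars_mem w hw I c hc Q]

/-- The dimension of a Chow group is at most the number of generators. -/
theorem finrank_le_card {σ κ : Type} [Field κ] (w : σ → ℕ) (I : Ideal (MvPolynomial σ κ)) (c : ℕ)
    [Finite (Sub w I c)] : Module.Finite ℚ (CH w I c) ∧
      Module.finrank ℚ (CH w I c) ≤ Nat.card (Sub w I c) := by
  have := Fintype.ofFinite (Sub w I c)
  refine ⟨inferInstance, ?_⟩
  have h1 : Module.finrank ℚ (CH w I c) ≤ Module.finrank ℚ (Sub w I c →₀ ℚ) :=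
    LinearMap.finrank_le_finrank_of_surjective (f := (Rel w I c).mkQ) (Submodule.mkQ_surjective _)
  rw [Module.finrank_finsupp_self] at h1
  rw [Nat.card_eq_fintype_card]
  exact h1

theorem finrank_le_one {σ κ : Type} [Field κ] (w : σ → ℕ) (I : Ideal (MvPolynomial σ κ)) (c : ℕ)
    [Subsingleton (Sub w I c)] : Module.Finite ℚ (CH w I c) ∧
      Module.finrank ℚ (CH w I c) ≤ 1 := by
  obtain ⟨h1, h2⟩ := finrank_le_card w I c
  exact ⟨h1, h2.trans (Finite.card_le_one_iff_subsingleton.2 inferInstance)⟩

end Pool.Agent.CR2
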