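import Pool.Agent.Helper41.PP.Vanish

/-!
(A) (helper3).  Modulo the subvarieties contained in `V(a)`, `a` homogeneous of positive degree,
the divisor of every homogeneous element is rationally equivalent to zero.
-/

namespace Pool.Agent.CR2

open MvPolynomial Pool.Agent.Helper41.PP

variable {σ κ : Type} [Field κ]

/-- The span of the subvarieties contained in `V(a)`. -/
noncomputable def InS (w : σ → ℕ) (J : Ideal (MvPolynomial σ κ)) (a : MvPolynomial σ κ) (c : ℕ) :
    Submodule ℚ (Sub w J c →₀ ℚ) :=
  Submodule.span ℚ {r | ∃ Q : Sub w J c, a ∈ Q.ideal ∧ r = Finsupp.single Q 1}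

theorem mem_of_supp {α : Type} (S : Submodule ℚ (α →₀ ℚ)) (D : α →₀ ℚ)
    (h : ∀ Q, D Q ≠ 0 → Finsupp.single Q 1 ∈ S) : D ∈ S := by
  classical
  rw [← Finsupp.sum_single D]
  refine Submodule.sum_mem _ (fun Q hQ => ?_)
  have h1 := Submodule.smul_mem S (D Q) (h Q (Finsupp.mem_support_iff.mp hQ))
  simpa using h1

theorem coneRel_le [Finite σ] (w : σ → ℕ) (J : Ideal (MvPolynomial σ κ))
    (a : MvPolynomial σ κ) (m : ℕ) (hm : 0 < m) (ha : IsWeightedHomogeneous w a m) (c : ℕ) :
    ConeRel w J c ≤ Rel w J c ⊔ InS w J a c := by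
  classical
  rw [ConeRel, Submodule.span_le]
  rintro r ⟨b, P, d, f, hbc, hf, hfP, hr⟩
  have hPp := P.prime
  rw [SetLike.mem_coe]
  by_cases haP : a ∈ P.ideal
  · apply Submodule.mem_sup_right
    apply mem_of_supp
    intro Q hQ
    refine Submodule.subset_span ⟨Q, ?_, rfl⟩
    have hle : P.ideal ≤ Q.ideal := by
      by_contra h
      exact hQ ((hr Q).2 h)
    exact hle haP
  · have hfm : f ^ m ∉ P.ideal := fun h => hfP (hPp.mem_of_pow_mem _ h)
    have had : a ^ d ∉ P.ideal := fun h => haP (hPp.mem_of_pow_mem _ h)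
    obtain ⟨u, hu⟩ := exists_div (c := c) hbc P _ hfm
    obtain ⟨v, hv⟩ := exists_div (c := c) hbc P _ had
    have huv : u - v ∈ Rel w J c := by
      apply Submodule.subset_span
      refine ⟨b, P, m * d, _, _, u, v, hbc, ?_, ?_, hfm, had, hu, hv, fun Q => by simp⟩
      · have := hf.pow m
        simpa using this
      · have := ha.pow d
        rw [mul_comm]
        simpa using this
    have hvS : v ∈ InS w J a c := by
      apply mem_of_supp
      intro Q hQ
      refine Submodule.subset_span ⟨Q, ?_, rfl⟩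
      have hQp := Q.prime
      by_contra hn
      apply hQ
      by_cases hle : P.ideal ≤ Q.ideal
      · rw [(hv Q).1 hle, mult_eq_zero _ _ _ (fun h => hn (hQp.mem_of_pow_mem _ h))]
        simp
      · exact (hv Q).2 hle
    have hur : u = (m : ℚ) • r := by
      ext Q
      rw [Finsupp.smul_apply, smul_eq_mul]
      have hQp := Q.prime
      by_cases hle : P.ideal ≤ Q.ideal
      · have hht : Q.ideal.height ≤ P.ideal.height + 1 := by
          rw [Q.height, P.height, ← hbc]
          norm_cast
        rw [(hu Q).1 hle, (hr Q).1 hle, mult_pow _ _ hle hht _ hfP m]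
        push_cast
        ring
      · rw [(hu Q).2 hle, (hr Q).2 hle, mul_zero]
    have h1 : (m : ℚ) • r ∈ Rel w J c ⊔ InS w J a c := by
      rw [← hur]
      have h2 : u = (u - v) + v := by abel
      rw [h2]
      exact Submodule.add_mem_sup huv hvS
    have h2 := Submodule.smul_mem _ ((m : ℚ)⁻¹) h1
    rwa [smul_smul, inv_mul_cancel₀ (Nat.cast_ne_zero.mpr hm.ne'), one_smul] at h2

/-- Every subvariety of positive codimension of the weighted projective space is rationally
equivalent to a combination of subvarieties of `V(a)`, for `a` homogeneous of positive degree. -/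
theorem single_mem_of_pos [Finite σ] (w : σ → ℕ) (a : MvPolynomial σ κ) (m : ℕ) (hm : 0 < m)
    (ha : IsWeightedHomogeneous w a m) (c : ℕ) (hc : 0 < c)
    (q : Sub w (⊥ : Ideal (MvPolynomial σ κ)) c) :
    Finsupp.single q 1 ∈ Rel w (⊥ : Ideal (MvPolynomial σ κ)) c ⊔
      InS w (⊥ : Ideal (MvPolynomial σ κ)) a c :=
  coneRel_le w ⊥ a m hm ha c (vanish σ κ w c hc q)

end Pool.Agent.CR2
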