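import Pool.Agent.Helper41.PP.Trans

/-!
`Q0_homog` for a variable `none` of any weight: `F` of degree `w none + m`, `G` of degree `m`.
-/

namespace Pool.Agent.CR2

open MvPolynomial Pool.Agent.Helper41.PP

variable {σ κ : Type} [Field κ]

theorem rn_hom (w : Option σ → ℕ) (m : ℕ) (F : MvPolynomial σ κ)
    (hF : IsWeightedHomogeneous (fun i => w (some i)) F m) :
    IsWeightedHomogeneous w (rn σ κ F) m := by
  have h1 := rn_comp σ κ w m F
  rw [hF.weightedHomogeneousComponent_same] at h1
  rw [h1]
  exact weightedHomogeneousComponent_isWeightedHomogeneous m _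

theorem Q0_homog_w (F G : MvPolynomial σ κ) (w : Option σ → ℕ) (m : ℕ)
    (hF : IsWeightedHomogeneous (fun i => w (some i)) F (w none + m))
    (hG : IsWeightedHomogeneous (fun i => w (some i)) G m)
    (q : Ideal (MvPolynomial σ κ)) [q.IsPrime] (hq : HomId (fun i => w (some i)) q)
    (hGq : G ∉ q) : HomId w (Q0 F G q) := by
  have hQ := Q0_prime F G q hGq
  have hc := Q0_comap F G q hGq
  obtain ⟨R, hRp, hRh, hRle, hR⟩ := homId_core w (Q0 F G q)
  have h1 : rn σ κ F + X none * rn σ κ G ∈ R := by
    apply hR _ (w none + m) _ (Q0_gen F G q)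
    exact (rn_hom w _ F hF).add
      ((isWeightedHomogeneous_X κ w none).mul (rn_hom w m G hG))
  have h2 : rn σ κ G ∉ R := by
    intro h
    have h3 : G ∈ (Q0 F G q).comap (rn σ κ) := hRle h
    rw [hc] at h3
    exact hGq h3
  have h3 : R.comap (rn σ κ) = q := by
    apply le_antisymm
    · intro a ha
      have h4 : a ∈ (Q0 F G q).comap (rn σ κ) := hRle ha
      rwa [hc] at h4
    · apply homId_ext (fun i => w (some i)) q _ hq
      intro f d hf hfq
      apply hR _ d (rn_hom w d f hf)
      have h4 : f ∈ (Q0 F G q).comap (rn σ κ) := by rwa [hc]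
      exact h4
  have h4 := Q0_unique F G R h1 h2
  rw [h3] at h4
  rw [← h4]
  exact hRh

end Pool.Agent.CR2
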