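import Pool.Agent.CR2.Cone
import Pool.Agent.CR2.Hone
import Pool.Agent.CR2.PosDeg

/-!
(D) (helper3).  `incl`: a closed subset.  `OntoC w I c w' I' c'`: there is a surjective linear map
`CH w I c → CH w' I' c'` which sends the classes of subvarieties to classes of subvarieties.
-/

namespace Pool.Agent.CR2

open MvPolynomial Pool.Agent.Helper41.PP

variable {σ σ' σ'' κ : Type} [Field κ]

/-- There is a surjective linear map which sends subvarieties to subvarieties. -/
def OntoC (w : σ → ℕ) (I : Ideal (MvPolynomial σ κ)) (c : ℕ) (w' : σ' → ℕ)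
    (I' : Ideal (MvPolynomial σ' κ)) (c' : ℕ) : Prop :=
  ∃ φ : CH w I c →ₗ[ℚ] CH w' I' c', Function.Surjective φ

theorem OntoC.trans {w : σ → ℕ} {I : Ideal (MvPolynomial σ κ)} {c : ℕ} {w' : σ' → ℕ}
    {I' : Ideal (MvPolynomial σ' κ)} {c' : ℕ} {w'' : σ'' → ℕ}
    {I'' : Ideal (MvPolynomial σ'' κ)} {c'' : ℕ} (h : OntoC w I c w' I' c')
    (h' : OntoC w' I' c' w'' I'' c'') : OntoC w I c w'' I'' c'' := by
  obtain ⟨φ, hφ⟩ := h
  obtain ⟨φ', hφ'⟩ := h'
  exact ⟨φ'.comp φ, hφ'.comp hφ⟩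

theorem id_good [Finite σ] (w : σ → ℕ) : GoodExt w w (RingHom.id (MvPolynomial σ κ)) := by
  refine ⟨RingHom.Flat.id _, ?_, ?_, ?_⟩
  · intro q hq
    rwa [Ideal.map_id]
  · intro q _
    rw [Ideal.map_id, Ideal.comap_id]
  · intro d f
    rfl

/-- A closed subset which contains all subvarieties up to rational equivalence. -/
theorem incl [Finite σ] (w : σ → ℕ) (I I' : Ideal (MvPolynomial σ κ)) (hI : I' ≤ I) (c : ℕ)
    (h : ∀ Q : Sub w I' c, Finsupp.single Q 1 ∈ Rel w I' c ⊔
      Submodule.span ℚ {r | ∃ Q : Sub w I' c, I ≤ Q.ideal ∧ r = Finsupp.single Q 1}) :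
    OntoC w I c w I' c := by
  classical
  have hI' : I' ≤ I.map (RingHom.id (MvPolynomial σ κ)) := by rwa [Ideal.map_id]
  obtain ⟨e, he⟩ := exists_ext (id_good (κ := κ) w) hI' c
  let φ : CH w I c →ₗ[ℚ] CH w I' c :=
    Submodule.mapQ _ _ (Finsupp.lmapDomain ℚ ℚ e) (by
      intro r hr
      exact push_rel (id_good (κ := κ) w) hI' e he r hr)
  have hφ : ∀ q, φ (cls q) = cls (e q) := by
    intro q
    simp only [φ, cls]
    rw [Submodule.mkQ_apply, Submodule.mapQ_apply, Submodule.mkQ_apply]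
    simp [Finsupp.lmapDomain_apply, Finsupp.mapDomain_single]
  refine ⟨φ, ?_⟩
  have hle : Rel w I' c ⊔ Submodule.span ℚ {r | ∃ Q : Sub w I' c, I ≤ Q.ideal ∧
      r = Finsupp.single Q 1} ≤ (LinearMap.range φ).comap (Rel w I' c).mkQ := by
    refine sup_le ?_ ?_
    · intro r hr
      rw [Submodule.mem_comap]
      have : (Rel w I' c).mkQ r = 0 := by
        rw [Submodule.mkQ_apply, Submodule.Quotient.mk_eq_zero]
        exact hr
      rw [this]
      exact Submodule.zero_mem _
    · rw [Submodule.span_le]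
      rintro r ⟨Q, hQI, rfl⟩
      let q : Sub w I c :=
        { ideal := Q.ideal
          prime := Q.prime
          homog := Q.homog
          le := hQI
          height := Q.height }
      have hQ : Q = e q := sub_ext (by rw [he q, Ideal.map_id])
      rw [SetLike.mem_coe, Submodule.mem_comap]
      refine ⟨cls q, ?_⟩
      rw [hφ q, ← hQ]
      rfl
  intro y
  obtain ⟨z, rfl⟩ := Submodule.mkQ_surjective _ y
  induction z using Finsupp.induction_linear with
  | zero => exact ⟨0, by simp⟩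
  | add f g hf hg =>
    obtain ⟨a, ha⟩ := hf
    obtain ⟨b, hb⟩ := hg
    exact ⟨a + b, by rw [map_add, map_add, ha, hb]⟩
  | single Q a =>
    have h1 := hle (h Q)
    rw [Submodule.mem_comap] at h1
    obtain ⟨x, hx⟩ := h1
    refine ⟨a • x, ?_⟩
    rw [map_smul, hx, ← map_smul]
    simp

/-- Two ideals with the same zeros. -/
theorem incl_rad [Finite σ] (w : σ → ℕ) (I I' : Ideal (MvPolynomial σ κ)) (hI : I' ≤ I)
    (hr : I ≤ I'.radical) (c : ℕ) : OntoC w I c w I' c := by
  apply incl w I I' hI c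
  intro Q
  apply Submodule.mem_sup_right
  refine Submodule.subset_span ⟨Q, ?_, rfl⟩
  have := Q.prime
  exact hr.trans ((Ideal.IsPrime.radical_le_iff Q.prime).2 Q.le)

/-- The statement of (TH). -/
def TH (w : Option σ → ℕ) (J : Ideal (MvPolynomial σ κ)) (a b : MvPolynomial σ κ) (c : ℕ) : Prop :=
  ∃ ψ : ((Sub (fun i => w (some i)) J c →₀ ℚ) ⧸
      (Rel (fun i => w (some i)) J c ⊔ InS (fun i => w (some i)) J a c)) →ₗ[ℚ]
    ((Sub w (J.map (rn σ κ) ⊔ Ideal.span {X none * rn σ κ a + rn σ κ b}) (c + 1) →₀ ℚ) ⧸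
      (Rel w (J.map (rn σ κ) ⊔ Ideal.span {X none * rn σ κ a + rn σ κ b}) (c + 1) ⊔
        InS w (J.map (rn σ κ) ⊔ Ideal.span {X none * rn σ κ a + rn σ κ b}) (rn σ κ a) (c + 1))),
    Function.Surjective ψ

/-- Every subvariety of codimension at least two of `V(none * a + b)` is equivalent to a
combination of subvarieties of `V(a, b)`. -/
theorem lin_vanish [Finite σ] (w : Option σ → ℕ) (a b : MvPolynomial σ κ) (m : ℕ) (hm : 0 < m)
    (ha : IsWeightedHomogeneous (fun i => w (some i)) a m) (c : ℕ) (hc : 0 < c)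
    (hTH : TH w ⊥ a b c)
    (Q : Sub w (Ideal.span {X none * rn σ κ a + rn σ κ b}) (c + 1)) :
    Finsupp.single Q 1 ∈ Rel w (Ideal.span {X none * rn σ κ a + rn σ κ b}) (c + 1) ⊔
        InS w (Ideal.span {X none * rn σ κ a + rn σ κ b}) (rn σ κ a) (c + 1) := by
  have h0 : (⊥ : Ideal (MvPolynomial σ κ)).map (rn σ κ) ⊔
      Ideal.span {X none * rn σ κ a + rn σ κ b} = Ideal.span {X none * rn σ κ a + rn σ κ b} := by
    rw [Ideal.map_bot, bot_sup_eq]
  unfold TH at hTH
  rw [h0] at hTH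
  obtain ⟨ψ, hψ⟩ := hTH
  have h1 : ∀ x : ((Sub (fun i => w (some i)) (⊥ : Ideal (MvPolynomial σ κ)) c →₀ ℚ) ⧸
      (Rel (fun i => w (some i)) (⊥ : Ideal (MvPolynomial σ κ)) c ⊔
        InS (fun i => w (some i)) (⊥ : Ideal (MvPolynomial σ κ)) a c)), x = 0 := by
    intro x
    obtain ⟨r, rfl⟩ := Submodule.mkQ_surjective _ x
    rw [Submodule.mkQ_apply, Submodule.Quotient.mk_eq_zero]
    exact mem_of_supp _ r (fun q _ =>
      single_mem_of_pos (fun i => w (some i)) a m hm ha c hc q)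
  obtain ⟨x, hx⟩ := hψ ((Rel w (Ideal.span {X none * rn σ κ a + rn σ κ b}) (c + 1) ⊔
        InS w (Ideal.span {X none * rn σ κ a + rn σ κ b}) (rn σ κ a) (c + 1)).mkQ
        (Finsupp.single Q 1))
  rw [h1 x, map_zero] at hx
  rw [Submodule.mkQ_apply, eq_comm, Submodule.Quotient.mk_eq_zero] at hx
  exact hx

/-- The hypersurface `none * a + b`. -/
theorem lin_step [Finite σ] (w : Option σ → ℕ) (hw : ∀ i, 0 < w i) (a b : MvPolynomial σ κ)
    (m : ℕ) (hm : 0 < m) (ha : IsWeightedHomogeneous (fun i => w (some i)) a m) (c : ℕ)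
    (hc : 0 < c) (hcs : c + 1 ≤ Nat.card σ) (hTH : TH w ⊥ a b c) :
    OntoC (fun i => w (some i)) (Ideal.span {a, b}) (c + 1) w
      (Ideal.span {X none * rn σ κ a + rn σ κ b}) (c + 1) := by
  have h1 : OntoC (fun i => w (some i)) (Ideal.span {a, b}) (c + 1) w
      ((Ideal.span {a, b}).map (rn σ κ)) (c + 1) := by
    obtain ⟨φ, _, hφ⟩ := cone_surj w (fun i => hw (some i)) (Ideal.span {a, b})
      ((Ideal.span {a, b}).map (rn σ κ)) le_rfl Ideal.le_radical (c + 1) hcs
    exact ⟨φ, hφ⟩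
  have ha1 : rn σ κ a ∈ (Ideal.span {a, b}).map (rn σ κ) :=
    Ideal.mem_map_of_mem _ (Ideal.subset_span (by simp))
  have hb1 : rn σ κ b ∈ (Ideal.span {a, b}).map (rn σ κ) :=
    Ideal.mem_map_of_mem _ (Ideal.subset_span (by simp))
  refine h1.trans (incl w _ _ ?_ (c + 1) ?_)
  · rw [Ideal.span_le, Set.singleton_subset_iff]
    exact Ideal.add_mem _ (Ideal.mul_mem_left _ _ ha1) hb1
  · intro Q
    have h5 : ∀ {S T : Submodule ℚ (Sub w (Ideal.span {X none * rn σ κ a + rn σ κ b}) (c + 1)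
        →₀ ℚ)}, S ≤ T → Rel w (Ideal.span {X none * rn σ κ a + rn σ κ b}) (c + 1) ⊔ S ≤
        Rel w (Ideal.span {X none * rn σ κ a + rn σ κ b}) (c + 1) ⊔ T :=
      fun h => sup_le_sup_left h _
    refine h5 ?_ (lin_vanish w a b m hm ha c hc hTH Q)
    unfold InS
    apply Submodule.span_mono
    rintro r ⟨Q', hQ', rfl⟩
    refine ⟨Q', ?_, rfl⟩
    have h2 : X none * rn σ κ a + rn σ κ b ∈ Q'.ideal := Q'.le (Ideal.subset_span rfl)
    rw [Ideal.map_span, Ideal.span_le]
    rintro x ⟨y, hy, rfl⟩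
    rcases hy with rfl | hy
    · exact hQ'
    · rw [Set.mem_singleton_iff] at hy
      rw [hy]
      have h3 := Ideal.sub_mem _ h2 (Ideal.mul_mem_left _ (X none) hQ')
      rwa [add_sub_cancel_left] at h3

/-- (B): a variable in the ideal. -/
theorem kill [Finite σ] (w : Option σ → ℕ) (J : Ideal (MvPolynomial σ κ)) (c : ℕ)
    (hTH : TH w J 1 0 c) :
    OntoC (fun i => w (some i)) J c w (J.map (rn σ κ) ⊔ Ideal.span {X none}) (c + 1) := by
  have h0 : (X none * rn σ κ 1 + rn σ κ 0 : MvPolynomial (Option σ) κ) = X none := by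
    rw [map_one, map_zero, mul_one, add_zero]
  have h1 : InS (fun i => w (some i)) J (1 : MvPolynomial σ κ) c = ⊥ := by
    unfold InS
    rw [Submodule.span_eq_bot]
    rintro x ⟨Q, hQ, _⟩
    exact absurd ((Ideal.eq_top_iff_one _).2 hQ) Q.prime.ne_top
  have h2 : InS w (J.map (rn σ κ) ⊔ Ideal.span {X none}) (rn σ κ 1) (c + 1) = ⊥ := by
    unfold InS
    rw [Submodule.span_eq_bot]
    rintro x ⟨Q, hQ, _⟩
    rw [map_one] at hQ
    exact absurd ((Ideal.eq_top_iff_one _).2 hQ) Q.prime.ne_top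
  unfold TH at hTH
  rw [h0, h1, h2, sup_bot_eq, sup_bot_eq] at hTH
  exact hTH

/-- The Knoerrer step. -/
theorem knoerrer [Finite σ] (w : Option (Option σ) → ℕ) (hw : ∀ i, 0 < w i)
    (F : MvPolynomial σ κ) (h : MvPolynomial (Option σ) κ) (al : ℕ) (hal : 0 < al) (c : ℕ)
    (hc : 0 < c) (hcs : c ≤ Nat.card σ)
    (h1 : TH (fun i => w (some i)) (Ideal.span {F}) 1 0 c)
    (h2 : TH w ⊥ (X none ^ al) (X none * h + rn σ κ F) c) :
    OntoC (fun i => w (some (some i))) (Ideal.span {F}) c w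
      (Ideal.span {X none * rn (Option σ) κ (X none ^ al) +
        rn (Option σ) κ (X none * h + rn σ κ F)}) (c + 1) := by
  have e1 := kill (fun i => w (some i)) (Ideal.span {F}) c h1
  have hN : c + 1 ≤ Nat.card (Option σ) := by
    rw [Finite.card_option]
    omega
  have ha : IsWeightedHomogeneous (fun i => w (some i)) (X none ^ al : MvPolynomial (Option σ) κ)
      (al * w (some none)) := by
    have := (isWeightedHomogeneous_X κ (fun i => w (some i)) none).pow al
    simpa using this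
  have e3 := lin_step w hw (X none ^ al) (X none * h + rn σ κ F) (al * w (some none))
    (Nat.mul_pos hal (hw _)) ha c hc hN h2
  have e2 : OntoC (fun i => w (some i)) ((Ideal.span {F}).map (rn σ κ) ⊔ Ideal.span {X none})
      (c + 1) (fun i => w (some i)) (Ideal.span {X none ^ al, X none * h + rn σ κ F}) (c + 1) := by
    have hX : (X none : MvPolynomial (Option σ) κ) ∈
        (Ideal.span {F}).map (rn σ κ) ⊔ Ideal.span {X none} :=
      Ideal.mem_sup_right (Ideal.subset_span rfl)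
    have hF : rn σ κ F ∈ (Ideal.span {F}).map (rn σ κ) ⊔ Ideal.span {X none} :=
      Ideal.mem_sup_left (Ideal.mem_map_of_mem _ (Ideal.subset_span rfl))
    apply incl_rad
    · rw [Ideal.span_le]
      rintro x (rfl | rfl)
      · exact Ideal.pow_mem_of_mem _ hX _ hal
      · exact Ideal.add_mem _ (Ideal.mul_mem_right _ _ hX) hF
    · have hX' : (X none : MvPolynomial (Option σ) κ) ∈
          (Ideal.span {X none ^ al, X none * h + rn σ κ F}).radical :=
        ⟨al, Ideal.subset_span (by simp)⟩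
      refine sup_le ?_ ?_
      · rw [Ideal.map_span, Ideal.span_le]
        rintro x ⟨y, hy, rfl⟩
        rw [Set.mem_singleton_iff] at hy
        rw [hy]
        have h3 : X none * h + rn σ κ F ∈
            (Ideal.span {X none ^ al, X none * h + rn σ κ F}).radical :=
          Ideal.le_radical (Ideal.subset_span (by simp))
        have h4 := Ideal.sub_mem _ h3 (Ideal.mul_mem_right h _ hX')
        rwa [add_sub_cancel_left] at h4
      · rw [Ideal.span_le, Set.singleton_subset_iff]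
        exact hX'
  exact (e1.trans e2).trans e3

end Pool.Agent.CR2
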